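import Pool.Agent.H.MP_3f0cb5_an.B

set_option autoImplicit false
open Pool.Agent.H.MP_3f0cb5_an Filter Topology

namespace Pool.Agent.Results.MP_3f0cb5_an.Jump

theorem result : h 0 = 0 ∧ (∀ θ : ℝ, 0 < θ → θ ≤ 1 / 5 → ((Real.log 2 / 10 : ℝ) : EReal) ≤ h θ) ∧
    ¬ContinuousAt h 0 := by
  refine ⟨zero, fun _ => lower, fun H => ?_⟩
  have p : h 0 < ((Real.log 2 / 10 : ℝ) : EReal) := by
    rw [zero]; exact_mod_cast div_pos (Real.log_pos one_lt_two) (by norm_num)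
  obtain ⟨θ, h1, h2⟩ := (((H.eventually_lt_const p).filter_mono nhdsWithin_le_nhds).and
    (Ioc_mem_nhdsGT (by norm_num : (0 : ℝ) < 1 / 5))).exists
  exact h1.not_ge (lower h2.1 h2.2)

end Pool.Agent.Results.MP_3f0cb5_an.Jump
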